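import Pool.Agent.PCS.Stmts

/-!
Squad PCS, row TYP: typical vertices of a good ultrafilter.
-/

open scoped Pointwise

namespace Pool.Agent.PCS.H45

open Pool.Agent.H50.CIG

/-- the FC-centre is invariant under conjugation -/
theorem fc_conj {G : Type*} [Group G] (k x : G) (h : k⁻¹ * x * k ∈ fc G) : x ∈ fc G := by
  rw [mem_fc] at h ⊢
  have h1 : ((Subgroup.centralizer {k⁻¹ * x * k}).map
      ((MulAut.conj k : G ≃* G) : G →* G)).FiniteIndex := by
    constructor
    rw [Subgroup.index_map_equiv]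
    exact h.index_ne_zero
  refine Subgroup.finiteIndex_of_le (H := (Subgroup.centralizer {k⁻¹ * x * k}).map
    ((MulAut.conj k : G ≃* G) : G →* G)) ?_
  rintro _ ⟨z, hz, rfl⟩
  have h2 := Subgroup.mem_centralizer_iff.mp hz (k⁻¹ * x * k) rfl
  rw [Subgroup.mem_centralizer_iff]
  intro y hy
  rw [Set.mem_singleton_iff.mp hy]
  show x * (k * z * k⁻¹) = k * z * k⁻¹ * x
  calc x * (k * z * k⁻¹) = k * ((k⁻¹ * x * k) * z) * k⁻¹ := by group
    _ = k * (z * (k⁻¹ * x * k)) * k⁻¹ := by rw [h2]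
    _ = k * z * k⁻¹ * x := by group

theorem typ (hLEV : LevStmt) (hITP : ItpStmt) (hFIX : FixStmt) : TypStmt := by
  intro Γ V _ _ T S rk R K q hset U n hgood r
  obtain ⟨hN, hfin⟩ := hgood
  obtain ⟨H, hHfi, hH⟩ := hFIX Γ V S hset.gen n
  obtain ⟨-, -, -, hconj, hconj2, -⟩ := hITP Γ V T
  have horb : ∀ v : V, (MulAction.orbit Γ v).Finite := fun v => ((hLEV Γ V T).2 v).1
  have hKU : KU T U ≤ fc Γ := by
    refine le_fc H (KU T U) hfin ?_
    intro h hh k hk
    have hk' : ∀ᶠ v in (U : Filter V), k ∈ KK T v := hk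
    show ∀ᶠ v in (U : Filter V), h * k * h⁻¹ ∈ KK T v
    filter_upwards [hN, hk'] with v hv hkv
    exact hconj2 h k v (hH v (horb v) hv.le h hh) hkv
  have hball : (ball S r).Finite := by
    classical
    show ((S : Set Γ) ^ r).Finite
    rw [← Finset.coe_pow]
    exact Finset.finite_toSet _
  have hall : ∀ᶠ v in (U : Filter V), ∀ t : Γ ⧸ H, ∀ g ∈ ball S r, g ∉ fc Γ →
      (Quotient.out t)⁻¹ * g * Quotient.out t ∉ KK T v := by
    rw [Filter.eventually_all]
    intro t
    rw [Filter.eventually_all_finite hball]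
    intro g _
    by_cases hg : g ∈ fc Γ
    · exact Filter.Eventually.of_forall fun v h => absurd hg h
    · have h1 : (Quotient.out t)⁻¹ * g * Quotient.out t ∉ KU T U := fun h =>
        hg (fc_conj (Quotient.out t) g (hKU h))
      have h2 : ¬ ∀ᶠ v in (U : Filter V), (Quotient.out t)⁻¹ * g * Quotient.out t ∈ KK T v := h1
      rw [← Ultrafilter.eventually_not] at h2
      filter_upwards [h2] with v hv _
      exact hv
  filter_upwards [hN, hall] with v hv hallv w hw g hg hgw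
  by_contra hgfc
  obtain ⟨k, rfl⟩ := hw
  have hgw' : g ∈ KK T (k • v) := hgw
  have h3 : (Quotient.out (k : Γ ⧸ H))⁻¹ * k ∈ H := by
    rw [← QuotientGroup.eq]
    exact Quotient.out_eq' _
  have h4 := hH v (horb v) hv.le _ h3
  rw [mul_smul, inv_smul_eq_iff] at h4
  rw [h4] at hgw'
  have h5 : (Quotient.out (k : Γ ⧸ H))⁻¹ * g * Quotient.out (k : Γ ⧸ H) ∈ KK T v := by
    rw [hconj (Quotient.out (k : Γ ⧸ H))]
    have e : Quotient.out (k : Γ ⧸ H) * ((Quotient.out (k : Γ ⧸ H))⁻¹ * g *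
        Quotient.out (k : Γ ⧸ H)) * (Quotient.out (k : Γ ⧸ H))⁻¹ = g := by group
    rw [e]
    exact hgw'
  exact hallv _ g hg hgfc h5

end Pool.Agent.PCS.H45
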